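import Pool.Agent.Helper51.RP.Goals2

/-!
# Project RP (MP_fc6b1e_nt), packet BIN: `p`-th roots of elements close to 1

(The port of `Helper35.RS.BIN` and `Helper35.RS.Log` to all primes `p`.)
-/

namespace Pool.Agent.Helper59.RP

open NumberField Pool.Agent.Helper51.SigLeo Pool.Agent.Helper51.RP

section log

variable {p : ℕ} [Fact p.Prime] {k : Type} [NormedField k] [NormedAlgebra ℚ_[p] k]

variable (p) in
theorem norm_nat (n : ℕ) : ‖(n : k)‖ = ‖(n : ℚ_[p])‖ := by
  rw [← map_natCast (algebraMap ℚ_[p] k) n, norm_algebraMap']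

theorem norm_nat_le (p : ℕ) [Fact p.Prime] {k : Type} [NormedField k] [NormedAlgebra ℚ_[p] k]
    (n : ℕ) : ‖(n : k)‖ ≤ 1 := by
  rw [norm_nat p]
  have h6 := Padic.norm_int_le_one (p := p) n
  exact_mod_cast h6

variable (p) in
theorem norm_p : ‖(p : k)‖ = 1 / p := by
  rw [norm_nat p, Padic.norm_p, one_div]

theorem one_le_norm_nat_mul (p : ℕ) [Fact p.Prime] {k : Type} [NormedField k]
    [NormedAlgebra ℚ_[p] k] (n : ℕ) (hn : 0 < n) : 1 ≤ ‖(n : k)‖ * n := by
  rw [norm_nat p]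
  have h0 : (n : ℚ_[p]) ≠ 0 := by exact_mod_cast hn.ne'
  rw [Padic.norm_eq_zpow_neg_valuation h0, Padic.valuation_natCast]
  have hp0 : (0 : ℝ) < p := by exact_mod_cast (Fact.out : p.Prime).pos
  have h1 : p ^ padicValNat p n ∣ n := pow_padicValNat_dvd
  have h2 : p ^ padicValNat p n ≤ n := Nat.le_of_dvd hn h1
  have h3 : (p : ℝ) ^ padicValNat p n ≤ n := by exact_mod_cast h2
  rw [zpow_neg, zpow_natCast]
  rw [inv_mul_eq_div, le_div_iff₀ (by positivity), one_mul]
  exact h3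

variable [IsUltrametricDist k]

/-- The logarithm near 1. -/
theorem log_small (L : IwasawaLog p k) (r : kˣ) (n : ℕ) (hn : 1 ≤ n)
    (h : ‖(r : k) - 1‖ ≤ (1 / p : ℝ) ^ n) : ‖L.toFun r‖ ≤ (1 / p : ℝ) ^ n := by
  have hp : p.Prime := Fact.out
  have hp1 : (1 : ℝ) < p := by exact_mod_cast hp.one_lt
  have hq0 : (0 : ℝ) ≤ 1 / p := by positivity
  have hq1 : (1 / p : ℝ) < 1 := by
    rw [div_lt_one (by positivity)]; exact hp1
  have hlt : ‖(r : k) - 1‖ < 1 := h.trans_lt (pow_lt_one₀ hq0 hq1 (by omega))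
  have hs := L.hasSum r hlt
  have hterm : ∀ i : ℕ, ‖(-1 : k) ^ i * ((r : k) - 1) ^ (i + 1) / (i + 1)‖ ≤ (1 / p : ℝ) ^ n := by
    intro i
    rw [norm_div, norm_mul, norm_pow, norm_neg, norm_one, one_pow, one_mul, norm_pow]
    have h1 : 1 ≤ ‖((i + 1 : ℕ) : k)‖ * ((i + 1 : ℕ) : ℝ) :=
      one_le_norm_nat_mul p (i + 1) (by omega)
    push_cast at h1
    have hpos : 0 < ‖(i : k) + 1‖ := by
      by_contra hcon
      have : ‖(i : k) + 1‖ = 0 := le_antisymm (not_lt.1 hcon) (norm_nonneg _)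
      rw [this] at h1
      norm_num at h1
    rw [div_le_iff₀ hpos]
    have h2 : ‖(r : k) - 1‖ ^ (i + 1) ≤ ((1 / p : ℝ) ^ n) ^ (i + 1) :=
      pow_le_pow_left₀ (norm_nonneg _) h _
    refine h2.trans ?_
    rw [pow_succ]
    have h3 : ((1 / p : ℝ) ^ n) ^ i ≤ ‖(i : k) + 1‖ := by
      have h4 : ((1 / p : ℝ) ^ n) ^ i ≤ (1 / p : ℝ) ^ i := by
        rw [← pow_mul]
        apply pow_le_pow_of_le_one hq0 hq1.le
        nlinarith
      have h5 : (1 / p : ℝ) ^ i * ((i : ℝ) + 1) ≤ 1 := by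
        have h6 : i + 1 ≤ p ^ i := Nat.lt_pow_self hp.one_lt
        have h7 : ((i : ℝ) + 1) ≤ (p : ℝ) ^ i := by exact_mod_cast h6
        rw [one_div, inv_pow, inv_mul_eq_div, div_le_one (by positivity)]
        exact h7
      have h8 : (1 / p : ℝ) ^ i * ((i : ℝ) + 1) ≤ ‖(i : k) + 1‖ * ((i : ℝ) + 1) := h5.trans h1
      have h9 : (0 : ℝ) < (i : ℝ) + 1 := by positivity
      exact h4.trans (le_of_mul_le_mul_right h8 h9)
    rw [mul_comm]
    exact mul_le_mul_of_nonneg_left h3 (by positivity)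
  refine le_of_tendsto hs.norm (Filter.Eventually.of_forall fun s => ?_)
  exact IsUltrametricDist.norm_sum_le_of_forall_le_of_nonneg (by positivity) fun i _ => hterm i

/-- The binomial expansion to the first order. -/
theorem pow_exp (p : ℕ) [Fact p.Prime] {k : Type} [NormedField k] [NormedAlgebra ℚ_[p] k]
    [IsUltrametricDist k] (F : k) (hF : ‖F‖ ≤ 1) (n : ℕ) :
    ‖(1 + F) ^ n - 1 - n * F‖ ≤ ‖F‖ ^ 2 := by
  induction n with
  | zero =>
    simp
  | succ n ih =>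
    have h1 : (1 + F) ^ (n + 1) - 1 - ((n + 1 : ℕ) : k) * F =
        ((1 + F) ^ n - 1 - n * F) * (1 + F) + n * F ^ 2 := by
      push_cast
      ring
    rw [h1]
    have h2 : ‖1 + F‖ ≤ 1 :=
      (IsUltrametricDist.norm_add_le_max _ _).trans (max_le (by rw [norm_one]) hF)
    refine (IsUltrametricDist.norm_add_le_max _ _).trans (max_le ?_ ?_)
    · rw [norm_mul]
      calc ‖(1 + F) ^ n - 1 - n * F‖ * ‖1 + F‖ ≤ ‖F‖ ^ 2 * 1 :=
            mul_le_mul ih h2 (norm_nonneg _) (by positivity)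
        _ = ‖F‖ ^ 2 := mul_one _
    · rw [norm_mul, norm_pow]
      calc ‖(n : k)‖ * ‖F‖ ^ 2 ≤ 1 * ‖F‖ ^ 2 :=
            mul_le_mul_of_nonneg_right (norm_nat_le p n) (by positivity)
        _ = ‖F‖ ^ 2 := one_mul _

end log

/-- Newton iteration for the inverse `p`-th root. -/
noncomputable def newt (p : ℕ) {M : Type} [Field M] (z : M) : ℕ → M
  | 0 => 1
  | j + 1 => newt p z j * (1 + (1 - z * newt p z j ^ p) / p)

theorem newt_small {p : ℕ} [Fact p.Prime] {k : Type} [NormedField k] [NormedAlgebra ℚ_[p] k]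
    [IsUltrametricDist k] {M : Type} [Field M] [CharZero M] (τ : M →+* k) (z : M)
    (h : ‖τ z - 1‖ ≤ (1 / p : ℝ) ^ 3) (j : ℕ) :
    ‖τ (1 - z * newt p z j ^ p)‖ ≤ (1 / p : ℝ) ^ (j + 3) := by
  have hp : p.Prime := Fact.out
  have hp1 : (1 : ℝ) < p := by exact_mod_cast hp.one_lt
  have hp0 : (0 : ℝ) < p := by positivity
  have hq0 : (0 : ℝ) ≤ 1 / p := by positivity
  have hq1 : (1 / p : ℝ) < 1 := by
    rw [div_lt_one (by positivity)]; exact hp1
  have hpk : (p : k) ≠ 0 := by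
    intro h0
    have h1 := norm_p (k := k) p
    rw [h0, norm_zero] at h1
    have : (0 : ℝ) < 1 / p := by positivity
    linarith
  induction j with
  | zero =>
    rw [newt]
    have h1 : τ (1 - z * 1 ^ p) = -(τ z - 1) := by
      rw [one_pow, mul_one, map_sub, map_one]; ring
    rw [h1, norm_neg]
    simpa using h
  | succ j ih =>
    set y := newt p z j with hy
    set E : k := τ (1 - z * y ^ p) with hE
    have hE3 : ‖E‖ ≤ (1 / p : ℝ) ^ 3 :=
      ih.trans (pow_le_pow_of_le_one hq0 hq1.le (by omega))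
    set F : k := E / p with hF
    have hFn : ‖F‖ = p * ‖E‖ := by
      rw [hF, norm_div, norm_p p]
      field_simp
    have hF1 : ‖F‖ ≤ 1 := by
      rw [hFn]
      calc (p : ℝ) * ‖E‖ ≤ p * (1 / p : ℝ) ^ 3 := mul_le_mul_of_nonneg_left hE3 hp0.le
        _ = (1 / p : ℝ) ^ 2 := by field_simp
        _ ≤ 1 := pow_le_one₀ hq0 hq1.le
    have hR := pow_exp p F hF1 p
    set R : k := (1 + F) ^ p - 1 - p * F with hRdef
    have hpF : (p : k) * F = E := by
      rw [hF]; field_simp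
    have hzy : τ z * τ y ^ p = 1 - E := by
      rw [hE, map_sub, map_one, map_mul, map_pow]; ring
    have hnew : τ (1 - z * newt p z (j + 1) ^ p) = E ^ 2 - R * (1 - E) := by
      have h1 : τ (newt p z (j + 1)) = τ y * (1 + F) := by
        rw [newt, ← hy, map_mul, map_add, map_one, map_div₀, ← hE, map_natCast, ← hF]
      rw [map_sub, map_one, map_mul, map_pow, h1, mul_pow, ← mul_assoc, hzy]
      have h2 : (1 + F) ^ p = 1 + E + R := by
        rw [hRdef, hpF]; ring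
      rw [h2]; ring
    rw [hnew]
    have h1E : ‖1 - E‖ ≤ 1 := by
      have h5 : ‖1 - E‖ ≤ max ‖(1 : k)‖ ‖E‖ := by
        have := IsUltrametricDist.norm_add_le_max (1 : k) (-E)
        rwa [norm_neg, ← sub_eq_add_neg] at this
      refine h5.trans (max_le (by rw [norm_one]) (hE3.trans (pow_le_one₀ hq0 hq1.le)))
    have hmain : ‖E ^ 2 - R * (1 - E)‖ ≤ (p * ‖E‖) ^ 2 := by
      rw [sub_eq_add_neg]
      refine (IsUltrametricDist.norm_add_le_max _ _).trans (max_le ?_ ?_)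
      · rw [norm_pow]
        apply pow_le_pow_left₀ (norm_nonneg _)
        calc ‖E‖ = 1 * ‖E‖ := (one_mul _).symm
          _ ≤ p * ‖E‖ := mul_le_mul_of_nonneg_right hp1.le (norm_nonneg _)
      · rw [norm_neg, norm_mul]
        calc ‖R‖ * ‖1 - E‖ ≤ ‖F‖ ^ 2 * 1 := mul_le_mul hR h1E (norm_nonneg _) (by positivity)
          _ = (p * ‖E‖) ^ 2 := by rw [mul_one, hFn]
    refine hmain.trans ?_
    calc (p * ‖E‖) ^ 2 = p ^ 2 * (‖E‖ * ‖E‖) := by ring
      _ ≤ p ^ 2 * ((1 / p : ℝ) ^ 3 * (1 / p : ℝ) ^ (j + 3)) := by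
          apply mul_le_mul_of_nonneg_left _ (by positivity)
          exact mul_le_mul hE3 ih (norm_nonneg _) (by positivity)
      _ = (1 / p : ℝ) ^ (j + 1 + 3) := by
          have : (1 / p : ℝ) ^ (j + 1 + 3) = (1 / p : ℝ) * (1 / p : ℝ) ^ (j + 3) := by ring
          rw [this]
          field_simp

theorem s_bin : Pool.Agent.Helper51.RP.S_BIN := by
  intro p _ k _ _ _ L M _ _ T z hz N
  have hp : p.Prime := Fact.out
  have hp1 : (1 : ℝ) < p := by exact_mod_cast hp.one_lt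
  have hq0 : (0 : ℝ) ≤ 1 / p := by positivity
  have hq1 : (1 / p : ℝ) < 1 := by
    rw [div_lt_one (by positivity)]; exact hp1
  rcases Set.eq_empty_or_nonempty T with hT | ⟨τ₀, hτ₀⟩
  · refine ⟨1, fun τ hτ => ?_⟩
    rw [hT] at hτ
    exact absurd hτ (Set.notMem_empty τ)
  · have hne : newt p (z : M) N ≠ 0 := by
      intro h0
      have h1 := newt_small τ₀ (z : M) (hz τ₀ hτ₀) N
      rw [h0, zero_pow hp.ne_zero, mul_zero, sub_zero, map_one, norm_one] at h1
      have h3 : (1 / p : ℝ) ^ (N + 3) < 1 := pow_lt_one₀ hq0 hq1 (by omega)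
      linarith
    refine ⟨Units.mk0 _ hne, fun τ hτ => ?_⟩
    have h1 := newt_small τ (z : M) (hz τ hτ) N
    set r : M := (z : M) * newt p (z : M) N ^ p with hr
    have h2 : ‖τ r - 1‖ ≤ (1 / p : ℝ) ^ (N + 3) := by
      rw [map_sub, map_one] at h1
      rwa [norm_sub_rev]
    have h3 : ‖τ r‖ = 1 := by
      have h4 : ‖τ r - 1‖ < ‖(1 : k)‖ := by
        rw [norm_one]
        exact h2.trans_lt (pow_lt_one₀ hq0 hq1 (by omega))
      have h5 : ‖(τ r - 1) + 1‖ = max ‖τ r - 1‖ ‖(1 : k)‖ :=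
        IsUltrametricDist.norm_add_eq_max_of_norm_ne_norm h4.ne
      rw [sub_add_cancel, max_eq_right h4.le, norm_one] at h5
      exact h5
    constructor
    · exact h3
    · have h6 : ‖L.toFun (Units.map (τ : M →* k) (z * Units.mk0 _ hne ^ p))‖ ≤
          (1 / p : ℝ) ^ (N + 3) := by
        apply log_small L _ (N + 3) (by omega)
        exact h2
      exact h6.trans (pow_le_pow_of_le_one hq0 hq1.le (by omega))

end Pool.Agent.Helper59.RP
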